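import Pool.Agent.W516.BQ.Defs

/-!
# BQ-VOL: the form given by the volume form of a real form
-/

set_option autoImplicit false

open Module Finset

namespace Pool.Agent.W578.BQ

open Pool.Agent.W516.BQ Pool.Agent.W516.K3 Pool.Agent.W516.KU

variable {T : Type} [AddCommGroup T] [Module ℝ T] {m : ℕ}

/-- the sign of a row -/
def sg (q : Fin m × Fin 2) : ℂ := if q.2 = 0 then 1 else -1

theorem sg_sq (q : Fin m × Fin 2) : sg q * sg q = 1 := by
  unfold sg
  split_ifs <;> norm_num

theorem sg_sum : ∑ q : Fin m × Fin 2, sg q = 0 := by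
  rw [Fintype.sum_prod_type]
  refine Finset.sum_eq_zero fun i _ => ?_
  rw [Fin.sum_univ_two]
  simp [sg]

/-- the complex coordinates (`s = 1`) and their conjugates (`s = -1`) -/
noncomputable def row (b : T →ₗ[ℝ] T →ₗ[ℝ] ℝ) (J : Module.End ℝ T) (e : Fin m × Fin 2 → T)
    (s : ℂ) : T →ₗ[ℝ] (Fin m × Fin 2 → ℂ) where
  toFun t := fun p => ((b (e p) t : ℂ) + s * Complex.I * (b (J (e p)) t : ℂ)) /
    (b (e p) (e p) : ℂ)
  map_add' := by
    intro u v
    ext p
    simp only [map_add, Complex.ofReal_add, Pi.add_apply]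
    ring
  map_smul' := by
    intro c u
    ext p
    simp only [map_smul, smul_eq_mul, Complex.ofReal_mul, Pi.smul_apply, Complex.real_smul,
      RingHom.id_apply]
    ring

/-- the matrix of the coordinates -/
noncomputable def MM (b : T →ₗ[ℝ] T →ₗ[ℝ] ℝ) (J : Module.End ℝ T) (e : Fin m × Fin 2 → T)
    (v : Fin m × Fin 2 → T) : Matrix (Fin m × Fin 2) (Fin m × Fin 2) ℂ :=
  Matrix.of fun q => row b J e (sg q) (v q)

/-- the form -/
noncomputable def Ph (b : T →ₗ[ℝ] T →ₗ[ℝ] ℝ) (J : Module.End ℝ T) (e : Fin m × Fin 2 → T) :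
    MultilinearMap ℝ (fun _ : Fin m × Fin 2 => T) ℝ :=
  Complex.reLm.compMultilinearMap
    (((Matrix.detRowAlternating (R := ℂ) (n := Fin m × Fin 2)).toMultilinearMap.restrictScalars
      ℝ).compLinearMap fun q => row b J e (sg q))

theorem Ph_apply (b : T →ₗ[ℝ] T →ₗ[ℝ] ℝ) (J : Module.End ℝ T) (e v : Fin m × Fin 2 → T) :
    Ph b J e v = (MM b J e v).det.re := rfl

theorem MM_row (b : T →ₗ[ℝ] T →ₗ[ℝ] ℝ) (J : Module.End ℝ T) (e v : Fin m × Fin 2 → T)
    (q : Fin m × Fin 2) : MM b J e v q = row b J e (sg q) (v q) := rfl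

theorem MM_update (b : T →ₗ[ℝ] T →ₗ[ℝ] ℝ) (J : Module.End ℝ T) (e v : Fin m × Fin 2 → T)
    (q : Fin m × Fin 2) (w : T) :
    MM b J e (Function.update v q w) = (MM b J e v).updateRow q (row b J e (sg q) w) := by
  ext a c
  by_cases h : a = q
  · subst h
    rw [Matrix.updateRow_self, MM_row, Function.update_self]
  · rw [Matrix.updateRow_ne h, MM_row, MM_row, Function.update_of_ne h]

theorem bJ {b : T →ₗ[ℝ] T →ₗ[ℝ] ℝ} {J : Module.End ℝ T} (hb : Herm b J) (u v : T) :
    b u (J v) = -b (J u) v := by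
  have h1 := hb.isom u (J v)
  have h2 : J (J v) = -v := by
    have := congrArg (fun f : Module.End ℝ T => f v) hb.sq
    simpa using this
  rw [h2, map_neg] at h1
  rw [← h1]

theorem JJ {b : T →ₗ[ℝ] T →ₗ[ℝ] ℝ} {J : Module.End ℝ T} (hb : Herm b J) (v : T) :
    J (J v) = -v := by
  have := congrArg (fun f : Module.End ℝ T => f v) hb.sq
  simpa using this

theorem row_J {b : T →ₗ[ℝ] T →ₗ[ℝ] ℝ} {J : Module.End ℝ T} (hb : Herm b J)
    (e : Fin m × Fin 2 → T) {s : ℂ} (hs : s * s = 1) (t : T) :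
    row b J e s (J t) = (s * Complex.I) • row b J e s t := by
  ext p
  simp only [row, LinearMap.coe_mk, AddHom.coe_mk, Pi.smul_apply, smul_eq_mul]
  rw [bJ hb, hb.isom]
  push_cast
  linear_combination (-(b (J (e p)) t : ℂ) * hs * Complex.I ^ 2 / (b (e p) (e p) : ℂ)) -
    (b (J (e p)) t : ℂ) / (b (e p) (e p) : ℂ) * (Complex.I_sq)

theorem Ph_J {b : T →ₗ[ℝ] T →ₗ[ℝ] ℝ} {J : Module.End ℝ T} (hb : Herm b J)
    (e v : Fin m × Fin 2 → T) (q : Fin m × Fin 2) :
    Ph b J e (Function.update v q (J (v q))) = (sg q * Complex.I * (MM b J e v).det).re := by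
  rw [Ph_apply, MM_update, row_J hb e (sg_sq q), Matrix.det_updateRow_smul, ← MM_row,
    Matrix.updateRow_eq_self]

theorem sesqui {b : T →ₗ[ℝ] T →ₗ[ℝ] ℝ} {J : Module.End ℝ T} (hb : Herm b J)
    (e : Fin m × Fin 2 → T) : IsSesqui J (Ph b J e) where
  lin v i j := by
    rw [Ph_J hb, Ph_J hb]
    rfl
  anti v i j := by
    rw [Ph_J hb, Ph_J hb]
    simp [sg]
  alt0 v i j hij h := by
    rw [Ph_apply, Matrix.det_zero_of_row_eq (i := (i, 0)) (j := (j, 0)) (by simpa using hij)]
    · rfl
    · rw [MM_row, MM_row, h]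
      rfl
  alt1 v i j hij h := by
    rw [Ph_apply, Matrix.det_zero_of_row_eq (i := (i, 1)) (j := (j, 1)) (by simpa using hij)]
    · rfl
    · rw [MM_row, MM_row, h]
      rfl

theorem det_sum {κ : Type} [Fintype κ] [DecidableEq κ] (M N : Matrix κ κ ℂ) :
    ∑ q, (M.updateRow q (N.mulVec (M q))).det = N.trace * M.det := by
  have h1 : ∀ q, (M.updateRow q (N.mulVec (M q))).det = (M * N.transpose * M.adjugate) q q := by
    intro q
    rw [← Matrix.cramer_transpose_apply, Matrix.cramer_eq_adjugate_mulVec, Matrix.mul_apply,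
      Matrix.mulVec, dotProduct]
    refine Finset.sum_congr rfl fun i _ => ?_
    rw [← Matrix.adjugate_transpose, Matrix.transpose_apply, mul_comm]
    congr 1
    rw [Matrix.mul_apply, Matrix.mulVec, dotProduct]
    refine Finset.sum_congr rfl fun k _ => ?_
    rw [Matrix.transpose_apply, mul_comm]
  calc ∑ q, (M.updateRow q (N.mulVec (M q))).det = (M * N.transpose * M.adjugate).trace :=
        Finset.sum_congr rfl fun q _ => h1 q
    _ = (M.adjugate * (M * N.transpose)).trace := Matrix.trace_mul_comm _ _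
    _ = N.trace * M.det := by
        rw [← Matrix.mul_assoc, Matrix.adjugate_mul, Matrix.smul_mul, Matrix.one_mul,
          Matrix.trace_smul, Matrix.trace_transpose, smul_eq_mul, mul_comm]

/-- the family of the basis vectors -/
structure Bas (b : T →ₗ[ℝ] T →ₗ[ℝ] ℝ) (J : Module.End ℝ T) (V₀ : Submodule ℝ T)
    (e : Fin m × Fin 2 → T) : Prop where
  mem : ∀ p, e p ∈ V₀
  orth : ∀ p q, p ≠ q → b (e p) (e q) = 0
  ne : ∀ p, b (e p) (e p) ≠ 0
  expand : ∀ v ∈ V₀, v = ∑ q, (b (e q) v / b (e q) (e q)) • e q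

theorem exists_bas {b : T →ₗ[ℝ] T →ₗ[ℝ] ℝ} {J : Module.End ℝ T} [FiniteDimensional ℝ T]
    (hb : Herm b J) (V₀ : Submodule ℝ T) (hc : IsCompl V₀ (V₀.map J))
    (h0 : ∀ u ∈ V₀, ∀ v ∈ V₀, b u (J v) = 0) (hm : finrank ℝ V₀ = 2 * m) :
    ∃ e : Fin m × Fin 2 → T, Bas b J V₀ e := by
  classical
  let B : LinearMap.BilinForm ℝ V₀ := LinearMap.BilinForm.restrict b V₀
  have hB : LinearMap.IsSymm B := ⟨fun u v => hb.symm _ _⟩
  haveI : Invertible (2 : ℝ) := invertibleOfNonzero two_ne_zero
  obtain ⟨f, hf⟩ := LinearMap.BilinForm.exists_orthogonal_basis hB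
  let φ : Fin (finrank ℝ V₀) ≃ Fin m × Fin 2 := Fintype.equivOfCardEq (by simp [hm, mul_comm])
  let g : Basis (Fin m × Fin 2) ℝ V₀ := f.reindex φ
  have horth : ∀ p q, p ≠ q → b (g p : T) (g q : T) = 0 := by
    intro p q hpq
    have : φ.symm p ≠ φ.symm q := fun h => hpq (φ.symm.injective h)
    have h := hf this
    rw [Function.onFun] at h
    have h' : b (f (φ.symm p) : T) (f (φ.symm q) : T) = 0 := h
    rw [Basis.reindex_apply, Basis.reindex_apply]
    exact h'
  have hspan : ∀ p, ∀ v : V₀, b (g p : T) (v : T) = g.repr v p * b (g p : T) (g p : T) := by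
    intro p v
    have h1 : (v : T) = ∑ q, g.repr v q • (g q : T) := by
      have h := congrArg (fun w : V₀ => (w : T)) (g.sum_repr v).symm
      simp only [Submodule.coe_sum, Submodule.coe_smul] at h
      exact h
    conv_lhs => rw [h1]
    rw [map_sum, Finset.sum_eq_single p]
    · rw [map_smul, smul_eq_mul]
    · intro q _ hq
      rw [map_smul, horth p q hq.symm, smul_zero]
    · simp
  have hne : ∀ p, b (g p : T) (g p : T) ≠ 0 := by
    intro p hp
    have h1 : ∀ t : T, b (g p : T) t = 0 := by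
      intro t
      have ht : t ∈ V₀ ⊔ V₀.map J := by rw [hc.sup_eq_top]; trivial
      obtain ⟨u, hu, w, hw, rfl⟩ := Submodule.mem_sup.1 ht
      obtain ⟨w', hw', rfl⟩ := Submodule.mem_map.1 hw
      rw [map_add, h0 _ (g p).2 _ hw', add_zero]
      have := hspan p ⟨u, hu⟩
      rw [hp, mul_zero] at this
      exact this
    have h2 := hb.nondeg _ h1
    exact g.ne_zero p (Subtype.ext h2)
  refine ⟨fun p => g p, fun p => (g p).2, horth, hne, fun v hv => ?_⟩
  have h1 : v = ∑ q, g.repr ⟨v, hv⟩ q • (g q : T) := by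
    have h := congrArg (fun w : V₀ => (w : T)) (g.sum_repr ⟨v, hv⟩).symm
    simp only [Submodule.coe_sum, Submodule.coe_smul] at h
    exact h
  conv_lhs => rw [h1]
  refine Finset.sum_congr rfl fun q _ => ?_
  congr 1
  rw [eq_div_iff (hne q)]
  exact (hspan q ⟨v, hv⟩).symm

theorem row_x {b : T →ₗ[ℝ] T →ₗ[ℝ] ℝ} {J : Module.End ℝ T} (hb : Herm b J)
    {V₀ : Submodule ℝ T} (h0 : ∀ u ∈ V₀, ∀ v ∈ V₀, b u (J v) = 0)
    {e : Fin m × Fin 2 → T} (he : Bas b J V₀ e) {s : ℂ} (hs : s * s = 1)
    (x : Module.End ℝ T) (hx : ∀ u v, b (x u) v + b u (x v) = 0) (hxJ : x * J = J * x)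
    (c : ℝ) (hc : ∀ v ∈ V₀, (x - c • J) v ∈ V₀) (t : T) :
    row b J e s (x t) = (Matrix.of fun p q : Fin m × Fin 2 =>
      (-(b (e q) (x (e p)) : ℂ) / (b (e p) (e p) : ℂ))).mulVec (row b J e s t) +
      (s * Complex.I * c) • row b J e s t := by
  ext p
  have hxJ' : ∀ u, x (J u) = J (x u) := fun u => by
    have := congrArg (fun f : Module.End ℝ T => f u) hxJ
    simpa using this
  have h1 := he.expand _ (hc _ (he.mem p))
  have h2 : ∀ q, b (e q) ((x - c • J) (e p)) = b (e q) (x (e p)) := by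
    intro q
    rw [LinearMap.sub_apply, LinearMap.smul_apply, map_sub, map_smul,
      h0 _ (he.mem q) _ (he.mem p), smul_zero, sub_zero]
  simp only [h2] at h1
  have h3 : x (e p) = ∑ q, (b (e q) (x (e p)) / b (e q) (e q)) • e q + c • J (e p) := by
    rw [← h1]
    simp
  have h4 : b (e p) (x t) = -(∑ q, (b (e q) (x (e p)) / b (e q) (e q)) * b (e q) t +
      c * b (J (e p)) t) := by
    have h := hx (e p) t
    have h5 : b (x (e p)) t = ∑ q, (b (e q) (x (e p)) / b (e q) (e q)) * b (e q) t +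
        c * b (J (e p)) t := by
      conv_lhs => rw [h3]
      simp [LinearMap.sum_apply]
    rw [← h5]
    linarith
  have h6 : b (J (e p)) (x t) = -(∑ q, (b (e q) (x (e p)) / b (e q) (e q)) * b (J (e q)) t -
      c * b (e p) t) := by
    have h := hx (J (e p)) t
    have h5 : b (x (J (e p))) t = ∑ q, (b (e q) (x (e p)) / b (e q) (e q)) * b (J (e q)) t -
        c * b (e p) t := by
      rw [hxJ']
      conv_lhs => rw [h3]
      simp only [map_add, map_sum, map_smul, LinearMap.add_apply, LinearMap.sum_apply,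
        LinearMap.smul_apply, smul_eq_mul, JJ hb, map_neg, LinearMap.neg_apply]
      ring
    rw [← h5]
    linarith
  simp only [row, LinearMap.coe_mk, AddHom.coe_mk, Pi.smul_apply, smul_eq_mul, Pi.add_apply,
    Matrix.mulVec, dotProduct, Matrix.of_apply]
  rw [h4, h6]
  push_cast
  have h7 : ∑ q, -(b (e q) (x (e p)) : ℂ) / (b (e p) (e p) : ℂ) *
      (((b (e q) t : ℂ) + s * Complex.I * (b (J (e q)) t : ℂ)) / (b (e q) (e q) : ℂ)) =
      (-(∑ q, (b (e q) (x (e p)) : ℂ) / (b (e q) (e q) : ℂ) * (b (e q) t : ℂ)) -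
        s * Complex.I * ∑ q, (b (e q) (x (e p)) : ℂ) / (b (e q) (e q) : ℂ) *
          (b (J (e q)) t : ℂ)) / (b (e p) (e p) : ℂ) := by
    rw [Finset.mul_sum, ← Finset.sum_neg_distrib, ← Finset.sum_sub_distrib, Finset.sum_div]
    refine Finset.sum_congr rfl fun q _ => ?_
    ring
  rw [h7]
  have h8 : (s * Complex.I) * (s * Complex.I) = -1 := by
    calc (s * Complex.I) * (s * Complex.I) = (s * s) * (Complex.I * Complex.I) := by ring
      _ = -1 := by rw [hs, Complex.I_mul_I, one_mul]
  linear_combination (-(c : ℂ) * (b (J (e p)) t : ℂ) / (b (e p) (e p) : ℂ)) * h8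

theorem T_VOL : S_VOL := by
  classical
  intro T _ _ _ b J hb V₀ hc h0 m hm0 hm
  obtain ⟨e, he⟩ := exists_bas hb V₀ hc h0 hm
  refine ⟨Ph b J e, sesqui hb e, ?_, ?_⟩
  · rintro x hx hxJ ⟨c, hcx⟩ v
    have h1 : ∀ q, Ph b J e (Function.update v q (x (v q))) =
        ((((MM b J e v).updateRow q ((Matrix.of fun p q : Fin m × Fin 2 =>
          (-(b (e q) (x (e p)) : ℂ) / (b (e p) (e p) : ℂ))).mulVec (MM b J e v q))).det +
          sg q * (Complex.I * c * (MM b J e v).det))).re := by
      intro q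
      rw [Ph_apply, MM_update, row_x hb h0 he (sg_sq q) x hx hxJ c hcx,
        Matrix.det_updateRow_add, Matrix.det_updateRow_smul, ← MM_row,
        Matrix.updateRow_eq_self]
      congr 2
      ring
    rw [Finset.sum_congr rfl fun q _ => h1 q, ← Complex.re_sum, Finset.sum_add_distrib,
      det_sum, ← Finset.sum_mul, sg_sum, zero_mul, add_zero]
    have h2 : (Matrix.of fun p q : Fin m × Fin 2 =>
          (-(b (e q) (x (e p)) : ℂ) / (b (e p) (e p) : ℂ))).trace = 0 := by
      rw [Matrix.trace]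
      refine Finset.sum_eq_zero fun p _ => ?_
      rw [Matrix.diag_apply, Matrix.of_apply]
      have h := hx (e p) (e p)
      rw [hb.symm (x (e p)) (e p)] at h
      have h3 : b (e p) (x (e p)) = 0 := by linarith
      rw [h3]
      simp
    rw [h2, zero_mul, Complex.zero_re]
  · intro hall
    let p0 : Fin m × Fin 2 := (⟨0, hm0⟩, 0)
    set d : ℝ := b (e p0) (e p0) with hd
    have hd0 : d ≠ 0 := he.ne p0
    let x : Module.End ℝ T := (1 / d) • ((b (e p0)).smulRight (J (e p0)) -
      (b (J (e p0))).smulRight (e p0))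
    have hxa : ∀ t, x t = (1 / d) • (b (e p0) t • J (e p0) - b (J (e p0)) t • e p0) := by
      intro t
      simp [x]
    have hx : ∀ u v, b (x u) v + b u (x v) = 0 := by
      intro u v
      rw [hxa, hxa]
      simp only [map_smul, map_sub, LinearMap.smul_apply, LinearMap.sub_apply, smul_eq_mul]
      rw [hb.symm u (J (e p0)), hb.symm u (e p0)]
      ring
    have hxJ : x * J = J * x := by
      ext t
      rw [Module.End.mul_apply, Module.End.mul_apply, hxa, hxa, map_smul, map_sub, map_smul,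
        map_smul, JJ hb, bJ hb, hb.isom]
      congr 1
      simp only [neg_smul, smul_neg]
      abel
    have hk := hall x hx hxJ (Function.update e p0 (J (e p0)))
    have hbJ0 : b (J (e p0)) (e p0) = 0 := by
      rw [hb.symm]
      exact h0 _ (he.mem p0) _ (he.mem p0)
    rw [Finset.sum_eq_single p0] at hk
    · rw [Function.update_self, Function.update_idem, hxa, hb.isom, ← hd,
        h0 _ (he.mem p0) _ (he.mem p0), zero_smul, zero_sub, smul_neg, smul_smul,
        one_div_mul_cancel hd0, one_smul, Ph_apply] at hk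
      have hM : MM b J e (Function.update e p0 (-e p0)) =
          (1 : Matrix (Fin m × Fin 2) (Fin m × Fin 2) ℂ).updateRow p0
            ((-1 : ℂ) • (1 : Matrix (Fin m × Fin 2) (Fin m × Fin 2) ℂ) p0) := by
        have hrow : ∀ (s : ℂ) (q : Fin m × Fin 2), row b J e s (e q) =
            (1 : Matrix (Fin m × Fin 2) (Fin m × Fin 2) ℂ) q := by
          intro s q
          ext p
          simp only [row, LinearMap.coe_mk, AddHom.coe_mk]
          have e1 : b (J (e p)) (e q) = 0 := by
            rw [hb.symm]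
            exact h0 _ (he.mem q) _ (he.mem p)
          rw [e1]
          by_cases hpq : q = p
          · subst hpq
            rw [Matrix.one_apply_eq]
            have : (b (e q) (e q) : ℂ) ≠ 0 := by exact_mod_cast he.ne q
            simp [this]
          · rw [Matrix.one_apply_ne hpq, he.orth p q (Ne.symm hpq)]
            simp
        rw [MM_update]
        congr 1
        · ext q p
          rw [MM_row, hrow]
        · rw [map_neg, hrow]
          simp
      rw [hM, Matrix.det_updateRow_smul, Matrix.updateRow_eq_self, Matrix.det_one] at hk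
      norm_num at hk
    · intro q _ hq
      have h1 : x (Function.update e p0 (J (e p0)) q) = 0 := by
        rw [Function.update_of_ne hq, hxa, he.orth p0 q (Ne.symm hq), hb.symm (J (e p0)),
          h0 _ (he.mem q) _ (he.mem p0)]
        simp
      rw [h1]
      exact MultilinearMap.map_update_zero _ _ _
    · simp

end Pool.Agent.W578.BQ
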